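import Pool.Agent.MP_c1891a_nt.G43.Spec
import Pool.Agent.MP_28f2cb_lc.H35.Deriv

/-
Extension of derivations, and the derivation of the algebraic closure of the rational functions.
-/

namespace Pool.Agent.MP_c1891a_nt.G43

open Polynomial Pool.Agent.MP_28f2cb_lc

theorem sDerExt : SDerExt := by
  intro K R F _ _ _ _ _ _ _ _ hinj D
  have : IsDomain R := hinj.isDomain _
  let : Algebra (FractionRing R) F := (IsFractionRing.lift hinj).toAlgebra
  have : IsScalarTower R (FractionRing R) F :=
    IsScalarTower.of_algebraMap_eq fun x => (IsFractionRing.lift_algebraMap hinj x).symm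
  have : CharZero (FractionRing R) :=
    charZero_of_injective_algebraMap (algebraMap K (FractionRing R)).injective
  have : Algebra.FormallySmooth (FractionRing R) F := H35.formallySmooth_of_charZero _ _
  have : Algebra.FormallySmooth R (FractionRing R) := .of_isLocalization (nonZeroDivisors _)
  have : Algebra.FormallySmooth R F := .comp _ (FractionRing R) _
  let φ : R →+* TrivSqZeroExt F F :=
    { toFun := fun r => TrivSqZeroExt.inl (algebraMap R F r) + TrivSqZeroExt.inr (D r)
      map_one' := by ext <;> simp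
      map_mul' := fun x y => by
        ext
        · simp
        · simp only [TrivSqZeroExt.snd_mul, TrivSqZeroExt.snd_add, TrivSqZeroExt.fst_add,
            TrivSqZeroExt.snd_inl, TrivSqZeroExt.snd_inr, TrivSqZeroExt.fst_inl,
            TrivSqZeroExt.fst_inr, zero_add, add_zero, Derivation.leibniz, op_smul_eq_smul,
            algebraMap_smul]
      map_zero' := by ext <;> simp
      map_add' := fun x y => by ext <;> simp }
  let : Algebra R (H35.Dual F) := RingHom.toAlgebra φ
  let g0 : H35.Dual F →+* F := (TrivSqZeroExt.fstHom F F F).toRingHom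
  have hg0 : ∀ r, g0 (φ r) = algebraMap R F r := fun r => by
    show TrivSqZeroExt.fst (TrivSqZeroExt.inl (algebraMap R F r) + TrivSqZeroExt.inr (D r)) = _
    simp
  let g : H35.Dual F →ₐ[R] F := { g0 with commutes' := hg0 }
  have hs : Function.Surjective g := fun x => ⟨TrivSqZeroExt.inl x, rfl⟩
  have hn : IsNilpotent (RingHom.ker (g : H35.Dual F →+* F)) := by
    refine ⟨2, ?_⟩
    rw [pow_two, Ideal.zero_eq_bot, eq_bot_iff, Ideal.mul_le]
    intro r hr s hs
    have h1 : TrivSqZeroExt.fst (R := F) (M := F) r = 0 := hr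
    have h2 : TrivSqZeroExt.fst (R := F) (M := F) s = 0 := hs
    have : ∀ r s : TrivSqZeroExt F F, r.fst = 0 → s.fst = 0 → r * s = 0 := by
      intro r s h1 h2
      ext <;> simp [h1, h2]
    exact this r s h1 h2
  let σ := Algebra.FormallySmooth.liftOfSurjective (AlgHom.id R F) g hs hn
  have hσ : ∀ x, TrivSqZeroExt.fst (R := F) (M := F) (σ x) = x := fun x =>
    Algebra.FormallySmooth.liftOfSurjective_apply (AlgHom.id R F) g hs hn x
  have hmul : ∀ x y, TrivSqZeroExt.snd (R := F) (M := F) (σ (x * y)) =
      x * TrivSqZeroExt.snd (R := F) (M := F) (σ y) +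
        y * TrivSqZeroExt.snd (R := F) (M := F) (σ x) := by
    intro x y
    rw [map_mul]
    have := TrivSqZeroExt.snd_mul (R := F) (M := F) (σ x) (σ y)
    rw [hσ, hσ] at this
    refine this.trans ?_
    simp [mul_comm]
  have hR : ∀ r, TrivSqZeroExt.snd (R := F) (M := F) (σ (algebraMap R F r)) = D r := by
    intro r
    rw [σ.commutes r]
    show TrivSqZeroExt.snd (TrivSqZeroExt.inl (algebraMap R F r) + TrivSqZeroExt.inr (D r)) = _
    simp
  refine ⟨Derivation.mk'
    { toFun := fun x => TrivSqZeroExt.snd (R := F) (M := F) (σ x)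
      map_add' := fun x y => by rw [map_add]; rfl
      map_smul' := fun c x => ?_ } hmul, hR⟩
  rw [Algebra.smul_def, hmul, IsScalarTower.algebraMap_apply K R F, hR, D.map_algebraMap,
    mul_zero, add_zero, RingHom.id_apply, Algebra.smul_def, IsScalarTower.algebraMap_apply K R F]

theorem sInj : SInj := by
  intro K R F _ _ _ _ _ _ ψ n z hz hmax
  have hz' : AlgebraicIndependent K z := AlgebraicIndependent.of_comp ψ hz
  have halg : ∀ a : R, IsAlgebraic (Algebra.adjoin K (Set.range z)) a := by
    intro a
    by_contra ha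
    have h1 := (hz'.option_iff_transcendental a).2 ha
    exact hmax _ ((algebraicIndependent_equiv (finSuccEquiv n)).2 h1)
  refine ⟨(injective_iff_map_eq_zero ψ).2 fun a ha => ?_, halg⟩
  by_contra h0
  obtain ⟨r, hr, c, hc⟩ := (halg a).exists_nonzero_dvd (mem_nonZeroDivisors_of_ne_zero h0)
  obtain ⟨r, hr'⟩ := r
  have hr2 := hr'
  rw [Algebra.adjoin_range_eq_range_aeval] at hr2
  obtain ⟨p, rfl⟩ := hr2
  have h1 : ψ (MvPolynomial.aeval z p) = 0 := by
    have h2 : MvPolynomial.aeval z p = a * c := hc
    rw [h2, map_mul, ha, zero_mul]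
  rw [← AlgHom.comp_apply, MvPolynomial.comp_aeval] at h1
  have h3 := hz.eq_zero_of_aeval_eq_zero p h1
  subst h3
  exact hr (Subtype.ext (map_zero _))

/-- the constants of a derivation. -/
def DerExt_cst {K F : Type} [Field K] [Field F] [Algebra K F] (δ : Derivation K F F) :
    Subfield F where
  carrier := {x | δ x = 0}
  mul_mem' := fun {a b} ha hb => by
    have ha' : δ a = 0 := ha
    have hb' : δ b = 0 := hb
    show δ (a * b) = 0
    simp [ha', hb']
  one_mem' := δ.map_one_eq_zero
  add_mem' := fun {a b} ha hb => by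
    have ha' : δ a = 0 := ha
    have hb' : δ b = 0 := hb
    show δ (a + b) = 0
    simp [ha', hb']
  zero_mem' := δ.map_zero
  neg_mem' := fun {a} ha => by
    have ha' : δ a = 0 := ha
    show δ (-a) = 0
    simp [ha']
  inv_mem' := fun a ha => by
    have ha' : δ a = 0 := ha
    show δ a⁻¹ = 0
    simp [Derivation.leibniz_inv, ha']

/-- an element that is algebraic over constants is a constant. -/
theorem DerExt_alg {K S F : Type} [Field K] [CommRing S] [Field F] [CharZero F] [Algebra K F]
    [Algebra S F] (hinj : Function.Injective (algebraMap S F)) (δ : Derivation K F F)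
    (h0 : ∀ s, δ (algebraMap S F s) = 0) {a : F} (ha : IsAlgebraic S a) : δ a = 0 := by
  let : Algebra S (DerExt_cst δ) := ((algebraMap S F).codRestrict (DerExt_cst δ) h0).toAlgebra
  have : IsScalarTower S (DerExt_cst δ) F := IsScalarTower.of_algebraMap_eq fun _ => rfl
  have h1 : IsAlgebraic (DerExt_cst δ) a :=
    ha.extendScalars fun x y h => hinj (congrArg Subtype.val h)
  let δ' : Derivation (DerExt_cst δ) F F := Derivation.mk'
    { toFun := δ
      map_add' := δ.map_add
      map_smul' := fun c x => by
        have hc : δ c = 0 := c.2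
        show δ (c * x) = c * δ x
        simp [hc] } δ.leibniz
  have h2 := δ'.map_aeval (minpoly (DerExt_cst δ) a) a
  rw [minpoly.aeval, map_zero] at h2
  have h3 : aeval a (derivative (minpoly (DerExt_cst δ) a)) ≠ 0 :=
    (minpoly.irreducible h1.isIntegral).separable.aeval_derivative_ne_zero (minpoly.aeval _ _)
  exact (mul_eq_zero.1 h2.symm).resolve_left h3

theorem sFF (h : SDerExt) : SFF := by
  have htt : Transcendental ℂ tt :=
    (transcendental_algebraMap_iff (algebraMap (RatFunc ℂ) FF).injective).2
      RatFunc.transcendental_X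
  have hX : ∀ p : ℂ[X], algebraMap ℂ[X] FF p = aeval tt p := by
    intro p
    have h1 : (IsScalarTower.toAlgHom ℂ ℂ[X] FF) = aeval tt := by
      refine Polynomial.algHom_ext ?_
      rw [aeval_X, IsScalarTower.toAlgHom_apply, IsScalarTower.algebraMap_apply ℂ[X] (RatFunc ℂ) FF,
        RatFunc.algebraMap_X]
      rfl
    rw [← h1]
    rfl
  have hinj : Function.Injective (algebraMap ℂ[X] FF) := by
    rw [funext hX]
    exact transcendental_iff_injective.1 htt
  have halg : Algebra.IsAlgebraic ℂ[X] FF :=
    (IsFractionRing.comap_isAlgebraic_iff (K := RatFunc ℂ)).2 inferInstance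
  have kill : ∀ δ : Derivation ℂ FF FF, δ tt = 0 → ∀ f, δ f = 0 := fun δ h0 f =>
    DerExt_alg hinj δ (fun s => by rw [hX, δ.map_aeval, h0, smul_zero]) (halg.1 f)
  obtain ⟨D, hD⟩ := h ℂ ℂ[X] FF hinj (mkDerivation ℂ (1 : FF))
  have hD1 : D tt = 1 := by
    have h1 := hD X
    rwa [hX, aeval_X, mkDerivation_X] at h1
  refine ⟨htt, D, hD1, fun f hf => ?_, fun δ f => ?_⟩
  · by_cases ha : IsAlgebraic ℂ f
    · exact minpoly.degree_eq_one_iff.1
        (IsAlgClosed.degree_eq_one_of_irreducible ℂ (minpoly.irreducible ha.isIntegral))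
    · exfalso
      have h1 : IsAlgebraic (Algebra.adjoin ℂ {(X : ℂ[X])}) f := by
        obtain ⟨p, hp, h0⟩ := halg.1 f
        let e : ℂ[X] →+* Algebra.adjoin ℂ {(X : ℂ[X])} :=
          (RingHom.id ℂ[X]).codRestrict _ fun q => by
            rw [Polynomial.adjoin_X]
            trivial
        refine ⟨p.map e, (Polynomial.map_ne_zero_iff fun x y h => congrArg Subtype.val h).2 hp, ?_⟩
        rw [aeval_def, eval₂_map]
        exact h0
      have h2 := h1.adjoin_singleton (Polynomial.transcendental_X ℂ) ha
      rw [hX, aeval_X] at h2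
      have h3 := DerExt_alg (S := Algebra.adjoin ℂ {f}) Subtype.val_injective D (fun s => by
        obtain ⟨s, hs⟩ := s
        rw [Algebra.adjoin_singleton_eq_range_aeval] at hs
        obtain ⟨p, rfl⟩ := hs
        show D (aeval f p) = 0
        rw [D.map_aeval, hf, smul_zero]) h2
      exact one_ne_zero (hD1.symm.trans h3)
  · have h1 := kill (δ - δ tt • D) (by simp [hD1]) f
    simpa [sub_eq_zero] using h1

end Pool.Agent.MP_c1891a_nt.G43
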